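import Pool.Agent.H57.KG.Fib
import Pool.Agent.H41.L1.REM
import Pool.Agent.H89.GEN.PolyA

/-!
# Images of polynomial maps of almost full sets of grid points (IMAGES)

`img_map`: a polynomial map `P` from `ℝ ^ p` to `ℝ ^ c` with a minor which is at least `ρ` somewhere
on the cube, and a set `S` of grid points of mesh `2 ^ (-X)` of almost full cardinality: the image
of `S` has almost `2 ^ (c X)` cells.
-/

set_option autoImplicit false

namespace Pool.CMP35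

open Finset Real MvPolynomial Pool.POLY
open Pool.Agent.H49.Ent Pool.Agent.H32.Dense Pool.STK

/-- The uniform law on a finite set. -/
theorem isLaw_unif {Ω : Type} [Fintype Ω] [Nonempty Ω] :
    IsLaw (fun _ : Ω => (Fintype.card Ω : ℝ)⁻¹) := by
  have hc : (0 : ℝ) < Fintype.card Ω := by exact_mod_cast Fintype.card_pos
  refine ⟨fun _ => by positivity, ?_⟩
  rw [Finset.sum_const, Finset.card_univ, nsmul_eq_mul]
  exact mul_inv_cancel₀ hc.ne'

/-- A polynomial which is large somewhere on the cube is not small on one half of an almost full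
set of grid points. -/
theorem half_large (p K : ℕ) : ∃ C : ℝ, 1 ≤ C ∧ ∀ (X : ℕ) (G : MvPolynomial (Fin p) ℝ) (ρ e : ℝ)
    (S : Finset (Fin p → ℤ)), 0 < ρ → 0 ≤ e → (∀ i, G.degreeOf i ≤ K) →
    (∃ z : Fin p → ℝ, (∀ j, |z j| ≤ 1) ∧ ρ ≤ |eval z G|) →
    (∀ y ∈ S, ∀ j, |((y j : ℤ) : ℝ)| ≤ 2 ^ X) → S.Nonempty →
    p * (X * Real.log 2) - e ≤ Real.log S.card → C * Real.exp (C * e) ≤ 2 ^ X →
    (S.card : ℝ) ≤ 2 * ((S.filter fun y => ρ / (2 * C * Real.exp (C * e)) ≤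
      |eval (fun l => ((y l : ℤ) : ℝ) / 2 ^ X) G|).card : ℝ) := by
  classical
  obtain ⟨C, hC, hrem⟩ := Pool.L1.rem_full p K 0
  refine ⟨C, hC, fun X G ρ e S hρ he hdeg ⟨z, hz, hzG⟩ hS hne hent hsz => ?_⟩
  by_contra hcon
  push Not at hcon
  have hC0 : 0 < C := zero_lt_one.trans_le hC
  have : Nonempty S := hne.to_subtype
  have hcard : Fintype.card S = S.card := Fintype.card_coe S
  have hS0 : (0 : ℝ) < S.card := by exact_mod_cast hne.card_pos
  obtain ⟨M, hM⟩ : ∃ M : ℝ, M = ρ / (2 * C * Real.exp (C * e)) := ⟨_, rfl⟩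
  rw [← hM] at hcon
  have hM0 : 0 < M := by rw [hM]; positivity
  have h1 := hrem S (fun _ : S => (Fintype.card S : ℝ)⁻¹) X (fun y => (y : Fin p → ℤ)) G e M
    {y | |eval (fun l => (((y : Fin p → ℤ) l : ℤ) : ℝ) / 2 ^ X) G| ≤ M} isLaw_unif hdeg he hM0.le
    (fun y _ j => by
      have := hS y y.2 j
      simpa using this) (by
      rw [H_uniform Subtype.val_injective, hcard]
      exact hent) hsz (by
      have h2 : Pool.KAF.Pr (fun _ : S => (Fintype.card S : ℝ)⁻¹)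
          {y | |eval (fun l => (((y : Fin p → ℤ) l : ℤ) : ℝ) / 2 ^ X) G| ≤ M} =
          ∑ ω : S, if |eval (fun l => (((ω : Fin p → ℤ) l : ℤ) : ℝ) / 2 ^ X) G| ≤ M then
            ((S.card : ℝ))⁻¹ else 0 := by
        unfold Pool.KAF.Pr law
        rw [hcard]
        refine Finset.sum_congr rfl fun ω _ => ?_
        by_cases h : |eval (fun l => (((ω : Fin p → ℤ) l : ℤ) : ℝ) / 2 ^ X) G| ≤ M
        · simp [h]
        · simp [h]
      rw [h2]
      have h3 : (∑ ω : S, if |eval (fun l => (((ω : Fin p → ℤ) l : ℤ) : ℝ) / 2 ^ X) G| ≤ M then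
          ((S.card : ℝ))⁻¹ else 0) = ∑ y ∈ S, if |eval (fun l => ((y l : ℤ) : ℝ) / 2 ^ X) G| ≤ M
          then ((S.card : ℝ))⁻¹ else 0 :=
        Finset.sum_coe_sort S (fun y => if |eval (fun l => ((y l : ℤ) : ℝ) / 2 ^ X) G| ≤ M
          then ((S.card : ℝ))⁻¹ else 0)
      rw [h3, ← Finset.sum_filter, Finset.sum_const, nsmul_eq_mul]
      have h4 : ((S.filter fun y => |eval (fun l => ((y l : ℤ) : ℝ) / 2 ^ X) G| ≤ M).card : ℝ) +
          (S.filter fun y => M ≤ |eval (fun l => ((y l : ℤ) : ℝ) / 2 ^ X) G|).card ≥ S.card := by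
        have h5 : S ⊆ (S.filter fun y => |eval (fun l => ((y l : ℤ) : ℝ) / 2 ^ X) G| ≤ M) ∪
            (S.filter fun y => M ≤ |eval (fun l => ((y l : ℤ) : ℝ) / 2 ^ X) G|) := by
          intro y hy
          rw [Finset.mem_union, Finset.mem_filter, Finset.mem_filter]
          rcases le_total |eval (fun l => ((y l : ℤ) : ℝ) / 2 ^ X) G| M with h | h
          · exact Or.inl ⟨hy, h⟩
          · exact Or.inr ⟨hy, h⟩
        have h6 := (Finset.card_le_card h5).trans (Finset.card_union_le _ _)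
        exact_mod_cast h6
      rw [← div_eq_mul_inv, le_div_iff₀ hS0]
      linarith) (fun y hy _ => hy) z (fun i => by
      have := hz i
      simpa using this)
  have h2 : C * Real.exp (C * e) * M = ρ / 2 := by
    rw [hM]
    field_simp
  rw [h2] at h1
  linarith

/-- **Images of polynomial maps.** -/
theorem img_map (p c K : ℕ) : ∃ C : ℝ, 1 ≤ C ∧ ∀ (X : ℕ) (P : Fin c → MvPolynomial (Fin p) ℝ)
    (κ : Fin c → Fin p) (B ρ e E : ℝ) (S : Finset (Fin p → ℤ)) (Γ : Finset (Fin c → ℤ)),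
    1 ≤ B → 0 < ρ → ρ ≤ 1 → 0 ≤ e → 0 ≤ E → (∀ a, (P a).totalDegree ≤ K) →
    (∀ a m, |coeff m (P a)| ≤ B) → (∃ z : Fin p → ℝ, (∀ j, |z j| ≤ 1) ∧ ρ ≤ |eval z (jac P κ)|) →
    (∀ y ∈ S, ∀ j, |((y j : ℤ) : ℝ)| ≤ 2 ^ X) → S.Nonempty →
    p * (X * Real.log 2) - e ≤ Real.log S.card → C * Real.exp (C * e) ≤ 2 ^ X →
    (∀ y ∈ S, ∃ g ∈ Γ, ∀ a, |2 ^ X * eval (fun l => ((y l : ℤ) : ℝ) / 2 ^ X) (P a) - g a| ≤ E) →
    (2 : ℝ) ^ (c * X) ≤ C * (E + 1) ^ c * (B ^ (c + 2) / ρ) ^ (2 * c) * Real.exp (C * e) *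
      Γ.card := by
  classical
  obtain ⟨C₁, hC₁, hhalf⟩ := half_large p (c * K)
  obtain ⟨A₀, hA₀⟩ : ∃ A₀ : ℝ, A₀ = (p + 1) ^ 2 * (K + 1) ^ (p + 2) := ⟨_, rfl⟩
  have hK1 : (1 : ℝ) ≤ K + 1 := by
    have : (0 : ℝ) ≤ K := Nat.cast_nonneg K
    linarith
  have hp1 : (1 : ℝ) ≤ p + 1 := by
    have : (0 : ℝ) ≤ p := Nat.cast_nonneg p
    linarith
  have hA₀1 : 1 ≤ A₀ := by
    rw [hA₀]
    exact one_le_mul_of_one_le_of_one_le (one_le_pow₀ hp1) (one_le_pow₀ hK1)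
  obtain ⟨C₂, hC₂⟩ : ∃ C₂ : ℝ, C₂ = 32 * (c * c.factorial * A₀ ^ c + 1) * A₀ * (2 * C₁) :=
    ⟨_, rfl⟩
  have hC₁0 : 0 < C₁ := zero_lt_one.trans_le hC₁
  have hA₀0 : 0 < A₀ := zero_lt_one.trans_le hA₀1
  have hC₂0 : 0 < C₂ := by rw [hC₂]; positivity
  obtain ⟨C, hC⟩ : ∃ C : ℝ, C = 2 * 3 ^ p * 5 ^ c * (C₂ ^ (2 * c) + 1) + C₁ + 1 + C₁ * (2 * c) :=
    ⟨_, rfl⟩
  have hCa : 0 ≤ 2 * 3 ^ p * 5 ^ c * (C₂ ^ (2 * c) + 1) := by positivity
  have hCb : 0 ≤ C₁ * (2 * c) := by positivity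
  have hC1 : C₁ ≤ C := by rw [hC]; linarith
  have hC2 : 1 + C₁ * (2 * c) ≤ C := by rw [hC]; linarith
  have hC3 : 2 * 3 ^ p * 5 ^ c * C₂ ^ (2 * c) ≤ C := by
    have : 2 * 3 ^ p * 5 ^ c * C₂ ^ (2 * c) ≤ 2 * 3 ^ p * 5 ^ c * (C₂ ^ (2 * c) + 1) :=
      mul_le_mul_of_nonneg_left (by linarith) (by positivity)
    rw [hC]
    linarith
  refine ⟨C, by linarith, ?_⟩
  intro X P κ B ρ e E S Γ hB hρ hρ1 he hE hdeg hcf hz hS hne hent hsz hΓ
  have hB0 : 0 < B := zero_lt_one.trans_le hB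
  have hexp : (1 : ℝ) ≤ Real.exp (C₁ * e) := Real.one_le_exp (by positivity)
  have hhf := hhalf X (jac P κ) ρ e S hρ he (fun i => degree_jac P κ hdeg i) hz hS hne hent (by
    refine le_trans ?_ hsz
    exact mul_le_mul hC1 (Real.exp_le_exp.2 (mul_le_mul_of_nonneg_right hC1 he))
      (Real.exp_pos _).le (hC₁0.le.trans hC1))
  obtain ⟨δ, hδ⟩ : ∃ δ : ℝ, δ = ρ / (2 * C₁ * Real.exp (C₁ * e)) := ⟨_, rfl⟩
  rw [← hδ] at hhf
  have hδ0 : 0 < δ := by rw [hδ]; positivity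
  have hδ1 : δ ≤ 1 := by
    rw [hδ, div_le_one (by positivity)]
    have : 1 ≤ C₁ * Real.exp (C₁ * e) := one_le_mul_of_one_le_of_one_le hC₁ hexp
    linarith
  have hκ : Function.Injective κ := by
    obtain ⟨z, -, hz2⟩ := hz
    intro i i' hii
    by_contra hne'
    rw [eval_jac] at hz2
    have h1 : (Matrix.of fun j i => eval z (pderiv (κ i) (P j))).det = 0 :=
      Matrix.det_zero_of_column_eq hne' (fun j => by
        simp only [Matrix.of_apply, hii])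
    rw [h1, abs_zero] at hz2
    linarith
  have hcp : c ≤ p := by
    have := Fintype.card_le_of_injective κ hκ
    simpa using this
  -- the differential
  obtain ⟨A, hA⟩ : ∃ A : ℝ, A = A₀ * B := ⟨_, rfl⟩
  have hA1 : 1 ≤ A := by
    rw [hA]
    exact one_le_mul_of_one_le_of_one_le hA₀1 hB
  have hpp : (1 : ℝ) ≤ (p + 1) ^ 2 := one_le_pow₀ hp1
  have hpp2 : (p : ℝ) ^ 2 ≤ (p + 1) ^ 2 := by
    have : (0 : ℝ) ≤ p := Nat.cast_nonneg p
    nlinarith
  have hKp : (0 : ℝ) < (K + 1) ^ (p + 2) := by positivity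
  have hD : ∀ u : Fin p → ℝ, (∀ j, |u j| ≤ 1) → ∀ i j, |eval u (pderiv j (P i))| ≤ A := by
    intro u hu i j
    refine (abs_eval_le _ (totalDegree_pderiv _ _ (hdeg i)) (coeff_pderiv_le _ (hdeg i) (hcf i) j)
      le_rfl u hu).trans ?_
    rw [one_pow, mul_one, hA, hA₀]
    have h1 : ((K : ℝ) + 1) ^ p * ((K + 1) * B) ≤ (K + 1) ^ (p + 2) * B := by
      have h2 : ((K : ℝ) + 1) ^ p * ((K + 1) * B) = (K + 1) ^ (p + 1) * B := by ring
      rw [h2]
      exact mul_le_mul_of_nonneg_right (pow_le_pow_right₀ hK1 (by omega)) hB0.le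
    have h3 : (K + 1 : ℝ) ^ (p + 2) * B ≤ (p + 1) ^ 2 * (K + 1) ^ (p + 2) * B := by
      have h4 : 0 < (K + 1 : ℝ) ^ (p + 2) * B := by positivity
      nlinarith
    exact h1.trans h3
  have hT : ∀ u u' : Fin p → ℝ, (∀ j, |u j| ≤ 1) → (∀ j, |u' j| ≤ 1) → ∀ M : ℝ,
      (∀ j, |u' j - u j| ≤ M) → ∀ i, |eval u' (P i) - eval u (P i) -
        ∑ j, eval u (pderiv j (P i)) * (u' j - u j)| ≤ A * M ^ 2 := by
    intro u u' hu hu' M hM i
    have h1 := taylor_le (P i) (hdeg i) (hcf i) le_rfl u (fun j => u' j - u j) hu (fun j => by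
      rw [show u j + (u' j - u j) = u' j by ring]
      exact hu' j) hM
    have e1 : (fun j => u j + (u' j - u j)) = u' := by
      funext j
      ring
    have e2 : ∑ j, (u' j - u j) * eval u (pderiv j (P i)) =
        ∑ j, eval u (pderiv j (P i)) * (u' j - u j) := Finset.sum_congr rfl fun j _ => mul_comm _ _
    rw [e1, e2] at h1
    refine h1.trans ?_
    refine mul_le_mul_of_nonneg_right ?_ (sq_nonneg M)
    rw [one_pow, mul_one, hA, hA₀]
    have h4 : 0 < (K + 1 : ℝ) ^ (p + 2) * B := by positivity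
    nlinarith
  -- the cells
  obtain ⟨S', hS'⟩ : ∃ S', S' = S.filter fun y => δ ≤
      |eval (fun l => ((y l : ℤ) : ℝ) / 2 ^ X) (jac P κ)| := ⟨_, rfl⟩
  rw [← hS'] at hhf
  obtain ⟨n, hn⟩ : ∃ n : ℕ, n = ⌈E⌉₊ + 1 := ⟨_, rfl⟩
  obtain ⟨φ, hφ⟩ : ∃ φ : (Fin p → ℤ) → Fin c → ℤ, φ = fun y a =>
    ⌊2 ^ X * eval (fun l => ((y l : ℤ) : ℝ) / 2 ^ X) (P a)⌋ := ⟨_, rfl⟩
  obtain ⟨T, hT'⟩ : ∃ T : Finset (Fin c → ℤ), T = Γ.biUnion fun g =>
    Fintype.piFinset fun j => Finset.Icc (g j - n) (g j + n) := ⟨_, rfl⟩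
  have hTc : (T.card : ℝ) ≤ Γ.card * (2 * n + 1) ^ c := by
    rw [hT']
    refine le_trans (Nat.cast_le.2 Finset.card_biUnion_le) ?_
    push_cast
    refine (Finset.sum_le_sum (g := fun _ => ((2 * n + 1) ^ c : ℝ)) fun g _ => ?_).trans ?_
    · rw [Pool.KG.card_box]
      push_cast
      exact le_rfl
    · rw [Finset.sum_const, nsmul_eq_mul]
  have hmaps : ∀ y ∈ S', φ y ∈ T := by
    intro y hy
    rw [hS', Finset.mem_filter] at hy
    obtain ⟨g, hg, hga⟩ := hΓ y hy.1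
    rw [hT', Finset.mem_biUnion]
    refine ⟨g, hg, ?_⟩
    rw [Fintype.mem_piFinset]
    intro a
    rw [Finset.mem_Icc, hφ]
    have h1 := hga a
    rw [abs_le] at h1
    have h2 := Int.floor_le ((2 : ℝ) ^ X * eval (fun l => ((y l : ℤ) : ℝ) / 2 ^ X) (P a))
    have h3 := Int.lt_floor_add_one ((2 : ℝ) ^ X * eval (fun l => ((y l : ℤ) : ℝ) / 2 ^ X) (P a))
    have h4 : E ≤ (⌈E⌉₊ : ℝ) := Nat.le_ceil E
    have h5 : (n : ℝ) = ⌈E⌉₊ + 1 := by rw [hn]; push_cast; ring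
    constructor
    · have : ((g a - n : ℤ) : ℝ) ≤
          ((⌊(2 : ℝ) ^ X * eval (fun l => ((y l : ℤ) : ℝ) / 2 ^ X) (P a)⌋ : ℤ) : ℝ) := by
        push_cast
        linarith
      exact_mod_cast this
    · have : (((⌊(2 : ℝ) ^ X * eval (fun l => ((y l : ℤ) : ℝ) / 2 ^ X) (P a)⌋ : ℤ)) : ℝ) ≤
          ((g a + n : ℤ) : ℝ) := by
        push_cast
        linarith
      exact_mod_cast this
  have hX0 : (0 : ℝ) < 2 ^ X := by positivity
  obtain ⟨R, hR⟩ : ∃ R : ℝ, R = (2 * 2 ^ X + 1) ^ (p - c) *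
      ((32 * (c * (c.factorial * A ^ c) + 1) * A / δ) ^ c) ^ 2 := ⟨_, rfl⟩
  have hR0 : 0 ≤ R := by
    rw [hR]
    positivity
  have hfib : ∀ w ∈ T, ((S'.filter fun y => φ y = w).card : ℝ) ≤ R := by
    intro w _
    rw [hR]
    refine Pool.KG.fib_card p c hA1 hδ0 hδ1 (fun u i => eval u (P i))
      (fun u i j => eval u (pderiv j (P i))) κ hκ X _ (fun i => (w i : ℝ) / 2 ^ X) hT hD ?_ ?_ ?_
    · intro y hy
      rw [Finset.mem_filter, hS', Finset.mem_filter] at hy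
      exact hS y hy.1.1
    · intro y hy
      rw [Finset.mem_filter, hS', Finset.mem_filter] at hy
      have := hy.1.2
      rwa [eval_jac] at this
    · intro y hy i
      rw [Finset.mem_filter] at hy
      have h1 := congrFun hy.2 i
      rw [hφ] at h1
      beta_reduce at h1 ⊢
      have h2 := Int.floor_le ((2 : ℝ) ^ X * eval (fun l => ((y l : ℤ) : ℝ) / 2 ^ X) (P i))
      have h3 := Int.lt_floor_add_one
        ((2 : ℝ) ^ X * eval (fun l => ((y l : ℤ) : ℝ) / 2 ^ X) (P i))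
      rw [h1] at h2 h3
      have h4 : eval (fun l => ((y l : ℤ) : ℝ) / 2 ^ X) (P i) - (w i : ℝ) / 2 ^ X =
          (2 ^ X * eval (fun l => ((y l : ℤ) : ℝ) / 2 ^ X) (P i) - w i) / 2 ^ X := by
        field_simp
      rw [h4, abs_div, abs_of_pos hX0]
      refine div_le_div_of_nonneg_right ?_ hX0.le
      rw [abs_le]
      constructor <;> linarith
  have hcount : (S'.card : ℝ) ≤ T.card * R := by
    have h1 := Finset.card_eq_sum_card_fiberwise (s := S') (t := T) (f := φ)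
      (fun y hy => hmaps y hy)
    rw [h1]
    push_cast
    refine (Finset.sum_le_sum hfib).trans (le_of_eq ?_)
    rw [Finset.sum_const, nsmul_eq_mul]
  -- the end
  have hS0 : (0 : ℝ) < S.card := by exact_mod_cast hne.card_pos
  have hSl : (2 : ℝ) ^ (p * X) * Real.exp (-e) ≤ S.card := by
    have h1 : Real.exp (p * (X * Real.log 2) - e) ≤ S.card := by
      rw [← Real.exp_log hS0]
      exact Real.exp_le_exp.2 hent
    have h2 : Real.exp (p * (X * Real.log 2) - e) = (2 : ℝ) ^ (p * X) * Real.exp (-e) := by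
      rw [sub_eq_add_neg, Real.exp_add]
      congr 1
      rw [show (p : ℝ) * (X * Real.log 2) = ((p * X : ℕ) : ℝ) * Real.log 2 by push_cast; ring,
        ← Real.log_pow, Real.exp_log (by positivity)]
    linarith
  have hn5 : (2 * n + 1 : ℝ) ≤ 5 * (E + 1) := by
    have h1 := Nat.ceil_lt_add_one hE
    rw [hn]
    push_cast
    linarith
  have hRb : R ≤ 3 ^ p * 2 ^ ((p - c) * X) * (C₂ * (B ^ (c + 2) / ρ) * Real.exp (C₁ * e)) ^ (2 * c)
      := by
    rw [hR]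
    have h1 : (2 * 2 ^ X + 1 : ℝ) ^ (p - c) ≤ 3 ^ p * 2 ^ ((p - c) * X) := by
      have h2 : (2 * 2 ^ X + 1 : ℝ) ≤ 3 * 2 ^ X := by
        have : (1 : ℝ) ≤ 2 ^ X := one_le_pow₀ (by norm_num)
        linarith
      calc (2 * 2 ^ X + 1 : ℝ) ^ (p - c) ≤ (3 * 2 ^ X) ^ (p - c) :=
            pow_le_pow_left₀ (by positivity) h2 _
        _ = 3 ^ (p - c) * 2 ^ ((p - c) * X) := by rw [mul_pow, ← pow_mul, mul_comm X]
        _ ≤ 3 ^ p * 2 ^ ((p - c) * X) :=
            mul_le_mul_of_nonneg_right (pow_le_pow_right₀ (by norm_num) (by omega)) (by positivity)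
    have h3 : 32 * (c * (c.factorial * A ^ c) + 1) * A / δ ≤
        C₂ * (B ^ (c + 2) / ρ) * Real.exp (C₁ * e) := by
      have h4 : C₂ * (B ^ (c + 2) / ρ) * Real.exp (C₁ * e) =
          32 * (c * c.factorial * A₀ ^ c + 1) * A₀ * B ^ (c + 2) / δ := by
        rw [hC₂, hδ]
        field_simp
      rw [h4]
      refine div_le_div_of_nonneg_right ?_ hδ0.le
      rw [hA]
      have h5 : (c * (c.factorial * (A₀ * B) ^ c) + 1 : ℝ) ≤
          (c * c.factorial * A₀ ^ c + 1) * B ^ (c + 1) := by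
        have h6 : (1 : ℝ) ≤ B ^ (c + 1) := one_le_pow₀ hB
        have h7 : B ^ c ≤ B ^ (c + 1) := pow_le_pow_right₀ hB (by omega)
        have h8 : (0 : ℝ) ≤ c * c.factorial * A₀ ^ c := by positivity
        calc (c * (c.factorial * (A₀ * B) ^ c) + 1 : ℝ)
            = (c * c.factorial * A₀ ^ c) * B ^ c + 1 := by rw [mul_pow]; ring
          _ ≤ (c * c.factorial * A₀ ^ c) * B ^ (c + 1) + B ^ (c + 1) :=
              add_le_add (mul_le_mul_of_nonneg_left h7 h8) h6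
          _ = _ := by ring
      calc 32 * (c * (c.factorial * (A₀ * B) ^ c) + 1) * (A₀ * B)
          ≤ 32 * ((c * c.factorial * A₀ ^ c + 1) * B ^ (c + 1)) * (A₀ * B) := by
            refine mul_le_mul_of_nonneg_right ?_ (by positivity)
            linarith
        _ = _ := by ring
    have h9 : ((32 * (c * (c.factorial * A ^ c) + 1) * A / δ) ^ c) ^ 2 ≤
        (C₂ * (B ^ (c + 2) / ρ) * Real.exp (C₁ * e)) ^ (2 * c) := by
      rw [← pow_mul, mul_comm c 2]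
      exact pow_le_pow_left₀ (by positivity) h3 _
    exact mul_le_mul h1 h9 (by positivity) (by positivity)
  obtain ⟨Z, hZ⟩ : ∃ Z : ℝ, Z = (C₂ * (B ^ (c + 2) / ρ) * Real.exp (C₁ * e)) ^ (2 * c) := ⟨_, rfl⟩
  rw [← hZ] at hRb
  have hZ0 : 0 ≤ Z := by rw [hZ]; positivity
  have hall : (2 : ℝ) ^ (p * X) * Real.exp (-e) ≤
      2 * (Γ.card * (5 * (E + 1)) ^ c * (3 ^ p * 2 ^ ((p - c) * X) * Z)) := by
    refine hSl.trans (hhf.trans ?_)
    refine mul_le_mul_of_nonneg_left (hcount.trans ?_) (by norm_num)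
    refine mul_le_mul (hTc.trans ?_) hRb hR0 (by positivity)
    exact mul_le_mul_of_nonneg_left (pow_le_pow_left₀ (by positivity) hn5 _) (Nat.cast_nonneg _)
  have hsplit : (2 : ℝ) ^ (p * X) = 2 ^ (c * X) * 2 ^ ((p - c) * X) := by
    rw [← pow_add]
    congr 1
    rw [← add_mul]
    congr 1
    omega
  rw [hsplit] at hall
  have hpos : (0 : ℝ) < 2 ^ ((p - c) * X) := by positivity
  have hall2 : (2 : ℝ) ^ (c * X) ≤
      2 * (Γ.card * (5 * (E + 1)) ^ c * (3 ^ p * Z)) * Real.exp e := by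
    have h1 : (2 : ℝ) ^ (c * X) * Real.exp (-e) ≤
        2 * (Γ.card * (5 * (E + 1)) ^ c * (3 ^ p * Z)) := by
      refine le_of_mul_le_mul_right ?_ hpos
      calc (2 : ℝ) ^ (c * X) * Real.exp (-e) * 2 ^ ((p - c) * X)
          = 2 ^ (c * X) * 2 ^ ((p - c) * X) * Real.exp (-e) := by ring
        _ ≤ _ := hall
        _ = _ := by ring
    calc (2 : ℝ) ^ (c * X) = (2 : ℝ) ^ (c * X) * Real.exp (-e) * Real.exp e := by
          rw [mul_assoc, ← Real.exp_add]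
          simp
      _ ≤ _ := mul_le_mul_of_nonneg_right h1 (Real.exp_pos _).le
  refine hall2.trans ?_
  have hZe : Z * Real.exp e ≤ C₂ ^ (2 * c) * (B ^ (c + 2) / ρ) ^ (2 * c) * Real.exp (C * e) := by
    rw [hZ, mul_pow, mul_pow, ← Real.exp_nat_mul, mul_assoc, ← Real.exp_add]
    refine mul_le_mul_of_nonneg_left (Real.exp_le_exp.2 ?_) (by positivity)
    have h1 : (1 + C₁ * (2 * c)) * e ≤ C * e := mul_le_mul_of_nonneg_right hC2 he
    push_cast
    linarith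
  calc 2 * (Γ.card * (5 * (E + 1)) ^ c * (3 ^ p * Z)) * Real.exp e
      = (2 * 3 ^ p * 5 ^ c) * (E + 1) ^ c * (Z * Real.exp e) * Γ.card := by
        rw [mul_pow]
        ring
    _ ≤ (2 * 3 ^ p * 5 ^ c) * (E + 1) ^ c *
        (C₂ ^ (2 * c) * (B ^ (c + 2) / ρ) ^ (2 * c) * Real.exp (C * e)) * Γ.card := by
        refine mul_le_mul_of_nonneg_right (mul_le_mul_of_nonneg_left hZe (by positivity))
          (Nat.cast_nonneg _)
    _ = (2 * 3 ^ p * 5 ^ c * C₂ ^ (2 * c)) * ((E + 1) ^ c *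
        (B ^ (c + 2) / ρ) ^ (2 * c) * Real.exp (C * e) * Γ.card) := by ring
    _ ≤ C * ((E + 1) ^ c * (B ^ (c + 2) / ρ) ^ (2 * c) * Real.exp (C * e) * Γ.card) :=
        mul_le_mul_of_nonneg_right hC3 (by positivity)
    _ = _ := by ring

end Pool.CMP35
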