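import Pool.Agent.H35.CMP.Img

/-!
# IMAGES

Polynomial maps `Q i` from `ℝ ^ k` to `ℝ ^ c` such that no unit covector kills all differences
`Q i z - Q i 0`, and almost full sets `Y i` of grid points: the sums of values, `c` for each `i`,
have almost `2 ^ (c X)` cells.
-/

set_option autoImplicit false

namespace Pool.CMP35

open Finset Real MvPolynomial Pool.POLY
open Pool.Agent.H49.Ent Pool.Agent.H32.Dense Pool.STK

/-- A unit vector orthogonal to fewer than `c` vectors. -/
theorem exists_orth {c n : ℕ} (h : n < c) (u : ℕ → Fin c → ℝ) : ∃ N : Fin c → ℝ,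
    ∑ a, N a ^ 2 = 1 ∧ ∀ m < n, ∑ a, N a * u m a = 0 := by
  obtain ⟨L, hL⟩ : ∃ L : (Fin c → ℝ) →ₗ[ℝ] (Fin n → ℝ),
    L = Matrix.mulVecLin (Matrix.of fun (m : Fin n) a => u (m : ℕ) a) := ⟨_, rfl⟩
  have h1 : LinearMap.ker L ≠ ⊥ := LinearMap.ker_ne_bot_of_finrank_lt (by simpa using h)
  obtain ⟨w, hw, hw0⟩ := (Submodule.ne_bot_iff _).1 h1
  have h2 : ∀ m < n, ∑ a, w a * u m a = 0 := by
    intro m hm
    have h3 := congrFun (LinearMap.mem_ker.1 hw) ⟨m, hm⟩
    rw [hL] at h3
    simp only [Matrix.mulVecLin_apply, Matrix.mulVec, dotProduct, Matrix.of_apply,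
      Pi.zero_apply] at h3
    rw [← h3]
    exact Finset.sum_congr rfl fun a _ => mul_comm _ _
  obtain ⟨q, hq⟩ : ∃ q : ℝ, q = ∑ a, w a ^ 2 := ⟨_, rfl⟩
  have hq0 : 0 < q := by
    rw [hq]
    obtain ⟨a, ha⟩ := Function.ne_iff.1 hw0
    exact Finset.sum_pos' (fun a _ => sq_nonneg _) ⟨a, mem_univ _, by
      have : w a ≠ 0 := by simpa using ha
      positivity⟩
  refine ⟨fun a => w a / Real.sqrt q, ?_, fun m hm => ?_⟩
  · have h3 : ∀ a, (w a / Real.sqrt q) ^ 2 = w a ^ 2 / q := by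
      intro a
      rw [div_pow, Real.sq_sqrt hq0.le]
    rw [Finset.sum_congr rfl fun a _ => h3 a, ← Finset.sum_div, ← hq]
    exact div_self hq0.ne'
  · have h3 : ∀ a, w a / Real.sqrt q * u m a = (w a * u m a) / Real.sqrt q := by
      intro a
      ring
    rw [Finset.sum_congr rfl fun a _ => h3 a, ← Finset.sum_div, h2 m hm, zero_div]

/-- **Greedy choice of a large determinant.** -/
theorem greedy (c : ℕ) {ι : Type} (v : ι → Fin c → ℝ) {ρ : ℝ} (hρ : 0 < ρ)
    (h : ∀ N : Fin c → ℝ, ∑ a, N a ^ 2 = 1 → ∃ i, ρ ≤ |∑ a, N a * v i a|) :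
    ∃ s : Fin c → ι, ρ ^ c / c.factorial ≤ |(Matrix.of fun a l => v (s l) a).det| := by
  classical
  rcases Nat.eq_zero_or_pos c with hc | hc
  · subst hc
    refine ⟨fun i => i.elim0, ?_⟩
    simp
  obtain ⟨i₀, -⟩ := h (fun a => if a = ⟨0, hc⟩ then 1 else 0) (by
    simp)
  have key : ∀ n ≤ c, ∃ (s : ℕ → ι) (N : ℕ → Fin c → ℝ), ∀ l < n, ∑ a, N l a ^ 2 = 1 ∧
      ρ ≤ |∑ a, N l a * v (s l) a| ∧ ∀ m < l, ∑ a, N l a * v (s m) a = 0 := by
    intro n
    induction n with
    | zero => exact fun _ => ⟨fun _ => i₀, fun _ _ => 0, fun l hl => absurd hl (Nat.not_lt_zero l)⟩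
    | succ n ih =>
      intro hn
      obtain ⟨s, N, hs⟩ := ih (by omega)
      obtain ⟨N₁, h1, h2⟩ := exists_orth (show n < c by omega) (fun m => v (s m))
      obtain ⟨i₁, h3⟩ := h N₁ h1
      refine ⟨Function.update s n i₁, Function.update N n N₁, fun l hl => ?_⟩
      rcases Nat.lt_succ_iff_lt_or_eq.1 hl with hl | rfl
      · obtain ⟨g1, g2, g3⟩ := hs l hl
        rw [Function.update_of_ne hl.ne, Function.update_of_ne hl.ne]
        refine ⟨g1, g2, fun m hm => ?_⟩
        rw [Function.update_of_ne (hm.trans hl).ne]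
        exact g3 m hm
      · rw [Function.update_self, Function.update_self]
        refine ⟨h1, h3, fun m hm => ?_⟩
        rw [Function.update_of_ne hm.ne]
        exact h2 m hm
  obtain ⟨s, N, hs⟩ := key c le_rfl
  refine ⟨fun l : Fin c => s (l : ℕ), ?_⟩
  obtain ⟨M, hM⟩ : ∃ M : Matrix (Fin c) (Fin c) ℝ, M = Matrix.of fun (l : Fin c) a => N (l : ℕ) a :=
    ⟨_, rfl⟩
  obtain ⟨V, hV⟩ : ∃ V : Matrix (Fin c) (Fin c) ℝ, V = Matrix.of fun a (l : Fin c) => v (s (l : ℕ)) a :=
    ⟨_, rfl⟩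
  rw [← hV]
  have hMV : ∀ l m : Fin c, (M * V) l m = ∑ a, N l a * v (s m) a := by
    intro l m
    rw [hM, hV, Matrix.mul_apply]
    rfl
  have htri : (M * V).BlockTriangular id := by
    intro l m hlm
    rw [hMV]
    exact (hs l l.2).2.2 m hlm
  have hdet : (M * V).det = ∏ l, (M * V) l l := Matrix.det_of_isUpperTriangular htri
  have hge : ρ ^ c ≤ |(M * V).det| := by
    rw [hdet, Finset.abs_prod]
    calc ρ ^ c = ∏ _l : Fin c, ρ := by rw [Finset.prod_const, Finset.card_univ, Fintype.card_fin]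
      _ ≤ ∏ l, |(M * V) l l| := Finset.prod_le_prod (fun _ _ => hρ.le) fun l _ => by
          rw [hMV]
          exact (hs l l.2).2.1
  have hN : |M.det| ≤ c.factorial := by
    have h1 := Matrix.det_le (A := M) (abv := (AbsoluteValue.abs : AbsoluteValue ℝ ℝ)) (x := 1)
      (fun l a => by
        have h2 := (hs l l.2).1
        have h3 : N l a ^ 2 ≤ 1 := by
          rw [← h2]
          exact Finset.single_le_sum (f := fun a => N l a ^ 2) (fun a _ => sq_nonneg _)
            (mem_univ a)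
        have h4 : |N l a| ≤ 1 := by
          rw [← sq_abs] at h3
          nlinarith [abs_nonneg (N l a)]
        simpa [hM] using h4)
    simpa using h1
  rw [Matrix.det_mul, abs_mul] at hge
  have hf : (0 : ℝ) < c.factorial := by exact_mod_cast Nat.factorial_pos c
  rw [div_le_iff₀ hf, mul_comm]
  exact hge.trans (mul_le_mul_of_nonneg_right hN (abs_nonneg _))

/-- The coefficients of a polynomial with renamed variables. -/
theorem coeff_rename_le {k p : ℕ} {f : Fin k → Fin p} (hf : Function.Injective f)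
    (q : MvPolynomial (Fin k) ℝ) {B : ℝ} (hB : 0 ≤ B) (h : ∀ m, |coeff m q| ≤ B)
    (m : Fin p →₀ ℕ) : |coeff m (rename f q)| ≤ B := by
  by_cases hm : ∃ u : Fin k →₀ ℕ, u.mapDomain f = m
  · obtain ⟨u, rfl⟩ := hm
    rw [coeff_rename_mapDomain f hf]
    exact h u
  · push Not at hm
    rw [coeff_rename_eq_zero f q m (fun u hu => absurd hu (hm u)), abs_zero]
    exact hB

/-- The derivative along the variables of one slot. -/
theorem slot_deriv {k : ℕ} {q : MvPolynomial (Fin k) ℝ} {N : ℝ} {z : Fin k → ℝ}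
    (hz : ∀ j, |z j| ≤ 1) (hN : ∀ (b : Fin k) (u : Fin k → ℝ), (∀ j, |u j| ≤ 1) →
      |eval u (pderiv b q)| ≤ N) : |eval z q - eval 0 q| ≤ k * N := by
  have h3 := (convex_Icc (0 : ℝ) 1).norm_image_sub_le_of_norm_hasDerivWithin_le
    (f := fun t : ℝ => eval (fun i => (0 : Fin k → ℝ) i + t * z i) q) (C := k * N)
    (fun t _ => (hasDerivAt_seg q 0 z t).hasDerivWithinAt) (fun t ht => by
      rw [Real.norm_eq_abs]
      refine (Finset.abs_sum_le_sum_abs _ _).trans ?_
      have h1 : ∀ i ∈ (univ : Finset (Fin k)), |z i * eval (fun i => (0 : Fin k → ℝ) i + t * z i)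
          (pderiv i q)| ≤ N := by
        intro i _
        have h2 := hN i (fun i => (0 : Fin k → ℝ) i + t * z i) (fun j => by
          rw [Pi.zero_apply, zero_add, abs_mul, abs_of_nonneg ht.1]
          exact mul_le_one₀ ht.2 (abs_nonneg _) (hz j))
        rw [abs_mul]
        calc _ ≤ 1 * |eval (fun i => (0 : Fin k → ℝ) i + t * z i) (pderiv i q)| :=
              mul_le_mul_of_nonneg_right (hz i) (abs_nonneg _)
          _ ≤ N := by rw [one_mul]; exact h2
      refine (Finset.sum_le_sum h1).trans (le_of_eq ?_)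
      rw [Finset.sum_const, Finset.card_univ, Fintype.card_fin, nsmul_eq_mul])
    (x := 0) (y := 1) (by simp) (by simp)
  have e0 : (fun i => (0 : Fin k → ℝ) i + (0 : ℝ) * z i) = 0 := by
    funext i
    simp
  have e1 : (fun i => (0 : Fin k → ℝ) i + (1 : ℝ) * z i) = z := by
    funext i
    simp
  rw [e0, e1, Real.norm_eq_abs] at h3
  simpa using h3

/-- **IMAGES.** -/
theorem images (k c r K : ℕ) : ∃ C : ℝ, 1 ≤ C ∧ ∀ (X : ℕ)
    (Q : Fin r → Fin c → MvPolynomial (Fin k) ℝ) (B ρ e E : ℝ) (Y : Fin r → Finset (Fin k → ℤ))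
    (Γ : Finset (Fin c → ℤ)), 1 ≤ B → 0 < ρ → ρ ≤ 1 → 0 ≤ e → 0 ≤ E →
    (∀ i a, (Q i a).totalDegree ≤ K) → (∀ i a m, |coeff m (Q i a)| ≤ B) →
    (∀ N : Fin c → ℝ, ∑ a, N a ^ 2 = 1 → ∃ i, ∃ z : Fin k → ℝ, (∀ j, |z j| ≤ 1) ∧
      ρ ≤ |∑ a, N a * (eval z (Q i a) - eval 0 (Q i a))|) →
    (∀ i, ∀ y ∈ Y i, ∀ j, |((y j : ℤ) : ℝ)| ≤ 2 ^ X) → (∀ i, (Y i).Nonempty) →
    (∀ i, k * (X * Real.log 2) - e ≤ Real.log (Y i).card) → C * Real.exp (C * e) ≤ 2 ^ X →
    (∀ y : Fin r → Fin c → Fin k → ℤ, (∀ i l, y i l ∈ Y i) → ∃ g ∈ Γ, ∀ a,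
      |2 ^ X * ∑ i, ∑ l, eval (fun b => ((y i l b : ℤ) : ℝ) / 2 ^ X) (Q i a) - g a| ≤ E) →
    (2 : ℝ) ^ (c * X) ≤ C * (E + 1) ^ c * (B / ρ) ^ (2 * c * (c + 2)) * Real.exp (C * e) *
      Γ.card := by
  classical
  obtain ⟨p, hp⟩ : ∃ p : ℕ, p = Fintype.card (Fin r × Fin c × Fin k) := ⟨_, rfl⟩
  have hpc : (p : ℝ) = r * (c * k) := by
    rw [hp]
    simp [Fintype.card_prod]
  obtain ⟨f⟩ : Nonempty ((Fin r × Fin c × Fin k) ≃ Fin p) := ⟨hp ▸ Fintype.equivFin _⟩
  obtain ⟨C₁, hC₁, himg⟩ := img_map p c K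
  have hC₁0 : 0 < C₁ := zero_lt_one.trans_le hC₁
  obtain ⟨R₀, hR₀⟩ : ∃ R₀ : ℝ, R₀ = (r * c + 1) ^ (c + 2) * c.factorial * (k + 1) ^ c := ⟨_, rfl⟩
  have hR₀0 : 0 < R₀ := by
    rw [hR₀]
    have : (0 : ℝ) < c.factorial := by exact_mod_cast Nat.factorial_pos c
    positivity
  obtain ⟨C, hC⟩ : ∃ C : ℝ, C = C₁ * (R₀ ^ (2 * c) + 1) + C₁ * (r * c + 1) := ⟨_, rfl⟩
  have hCa : C₁ * R₀ ^ (2 * c) ≤ C := by
    have : 0 ≤ C₁ * (r * c + 1) := by positivity
    rw [hC]
    linarith
  have hCb : C₁ * (r * c) ≤ C := by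
    have : 0 ≤ C₁ * (R₀ ^ (2 * c) + 1) := by positivity
    rw [hC]
    linarith
  have hCc : C₁ ≤ C := by
    have h1 : 0 ≤ C₁ * R₀ ^ (2 * c) := by positivity
    have h2 : 0 ≤ C₁ * (r * c) := by positivity
    rw [hC]
    linarith
  refine ⟨C, hC₁.trans hCc, ?_⟩
  intro X Q B ρ e E Y Γ hB hρ hρ1 he hE hdeg hcf hspan hY hne hent hsz hΓ
  have hB0 : 0 < B := zero_lt_one.trans_le hB
  -- the greedy choice
  obtain ⟨s, hs⟩ := greedy c (ι := Fin r × Fin k × {u : Fin k → ℝ // ∀ j, |u j| ≤ 1})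
    (fun x a => eval x.2.2.1 (pderiv x.2.1 (Q x.1 a))) (ρ := ρ / (k + 1)) (by positivity) (by
      intro N hN
      by_contra hcon
      push Not at hcon
      obtain ⟨i, z, hz, hz'⟩ := hspan N hN
      have h1 := slot_deriv (q := ∑ a, MvPolynomial.C (N a) * Q i a) (N := ρ / (k + 1)) hz
        (fun b u hu => by
          have h2 := hcon (i, b, ⟨u, hu⟩)
          have h3 : eval u (pderiv b (∑ a, MvPolynomial.C (N a) * Q i a)) =
              ∑ a, N a * eval u (pderiv b (Q i a)) := by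
            rw [map_sum, map_sum]
            refine Finset.sum_congr rfl fun a _ => ?_
            rw [pderiv_C_mul, map_mul, eval_C]
          rw [h3]
          exact h2.le)
      have h4 : eval z (∑ a, MvPolynomial.C (N a) * Q i a) -
          eval 0 (∑ a, MvPolynomial.C (N a) * Q i a) =
          ∑ a, N a * (eval z (Q i a) - eval 0 (Q i a)) := by
        rw [map_sum, map_sum, ← Finset.sum_sub_distrib]
        refine Finset.sum_congr rfl fun a _ => ?_
        rw [map_mul, map_mul, eval_C, eval_C]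
        ring
      rw [h4] at h1
      have h5 : (k : ℝ) * (ρ / (k + 1)) < ρ := by
        rw [mul_div_assoc', div_lt_iff₀ (by positivity)]
        nlinarith
      linarith)
  have hinj : ∀ (i : Fin r) (l : Fin c), Function.Injective fun b : Fin k => f (i, l, b) := by
    intro i l b b' h
    have := f.injective h
    simpa using this
  obtain ⟨P, hP⟩ : ∃ P : Fin c → MvPolynomial (Fin p) ℝ, P = fun a =>
    ∑ i, ∑ l : Fin c, rename (fun b => f (i, l, b)) (Q i a) := ⟨_, rfl⟩
  have hPe : ∀ (y : Fin p → ℝ) a, eval y (P a) =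
      ∑ i, ∑ l : Fin c, eval (fun b => y (f (i, l, b))) (Q i a) := by
    intro y a
    rw [hP, map_sum]
    refine Finset.sum_congr rfl fun i _ => ?_
    rw [map_sum]
    refine Finset.sum_congr rfl fun l _ => ?_
    rw [eval_rename]
    rfl
  have hPd : ∀ (y : Fin p → ℝ) a i l b, eval y (pderiv (f (i, l, b)) (P a)) =
      eval (fun b => y (f (i, l, b))) (pderiv b (Q i a)) := by
    intro y a i l b
    have h1 : pderiv (f (i, l, b)) (P a) =
        rename (fun b => f (i, l, b)) (pderiv b (Q i a)) := by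
      rw [hP, map_sum, Finset.sum_eq_single i]
      · rw [map_sum, Finset.sum_eq_single l]
        · exact pderiv_rename (hinj i l) b (Q i a)
        · intro l' _ hl'
          refine pderiv_eq_zero_of_notMem_vars fun hmem => hl' ?_
          obtain ⟨b', hb'⟩ := mem_vars_rename _ _ hmem
          have := f.injective hb'.2
          simp only [Prod.mk.injEq] at this
          exact this.2.1
        · exact fun h => absurd (mem_univ _) h
      · intro i' _ hi'
        rw [map_sum]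
        refine Finset.sum_eq_zero fun l' _ => ?_
        refine pderiv_eq_zero_of_notMem_vars fun hmem => hi' ?_
        obtain ⟨b', hb'⟩ := mem_vars_rename _ _ hmem
        have := f.injective hb'.2
        simp only [Prod.mk.injEq] at this
        exact this.1
      · exact fun h => absurd (mem_univ _) h
    rw [h1, eval_rename]
    rfl
  obtain ⟨κ, hκ⟩ : ∃ κ : Fin c → Fin p, κ = fun l => f ((s l).1, l, (s l).2.1) := ⟨_, rfl⟩
  obtain ⟨z, hz⟩ : ∃ z : Fin p → ℝ, z = fun j => (s (f.symm j).2.1).2.2.1 (f.symm j).2.2 :=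
    ⟨_, rfl⟩
  have hjac : eval z (jac P κ) =
      (Matrix.of fun a l => eval (s l).2.2.1 (pderiv (s l).2.1 (Q (s l).1 a))).det := by
    rw [eval_jac]
    congr 1
    ext a l
    rw [Matrix.of_apply, Matrix.of_apply, hκ]
    beta_reduce
    rw [hPd]
    congr 2
    rw [hz]
    funext b
    simp
  -- the set
  obtain ⟨θ, hθ⟩ : ∃ θ : (Fin r × Fin c → Fin k → ℤ) → Fin p → ℤ, θ = fun g j =>
    g ((f.symm j).1, (f.symm j).2.1) (f.symm j).2.2 := ⟨_, rfl⟩
  have hθinj : Function.Injective θ := by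
    intro g g' h
    funext il b
    have h1 := congrFun h (f (il.1, il.2, b))
    rw [hθ] at h1
    simpa using h1
  obtain ⟨S, hS⟩ : ∃ S : Finset (Fin p → ℤ), S =
    (Fintype.piFinset fun il : Fin r × Fin c => Y il.1).image θ := ⟨_, rfl⟩
  have hSc : (S.card : ℝ) = ∏ il : Fin r × Fin c, ((Y il.1).card : ℝ) := by
    rw [hS, Finset.card_image_of_injective _ hθinj, Fintype.card_piFinset]
    push_cast
    rfl
  have hmem : ∀ y ∈ S, ∀ i l, (fun b => y (f (i, l, b))) ∈ Y i := by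
    intro y hy i l
    rw [hS, Finset.mem_image] at hy
    obtain ⟨g, hg, rfl⟩ := hy
    rw [Fintype.mem_piFinset] at hg
    have h1 := hg (i, l)
    have h2 : (fun b => θ g (f (i, l, b))) = g (i, l) := by
      rw [hθ]
      funext b
      simp
    rw [h2]
    exact h1
  have hf0 : (0 : ℝ) < c.factorial := by exact_mod_cast Nat.factorial_pos c
  have hf1 : (1 : ℝ) ≤ c.factorial := by
    exact_mod_cast Nat.one_le_iff_ne_zero.2 (Nat.factorial_ne_zero c)
  have hk1 : (1 : ℝ) ≤ k + 1 := by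
    have : (0 : ℝ) ≤ k := Nat.cast_nonneg k
    linarith
  have hrc : (0 : ℝ) ≤ r * c := by positivity
  have h0 := himg X P κ ((r * c + 1) * B) ((ρ / (k + 1)) ^ c / c.factorial) (r * c * e) E S Γ
    (by nlinarith) (by positivity) (by
      have h1 : ρ / (k + 1) ≤ 1 := (div_le_one (by positivity)).2 (hρ1.trans hk1)
      have h2 : (ρ / (k + 1)) ^ c ≤ 1 := pow_le_one₀ (by positivity) h1
      exact (div_le_one hf0).2 (h2.trans hf1)) (by positivity) hE (fun a => by
      rw [hP]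
      refine (totalDegree_finsetSum _ _).trans (Finset.sup_le fun i _ => ?_)
      refine (totalDegree_finsetSum _ _).trans (Finset.sup_le fun l _ => ?_)
      exact (totalDegree_rename_le _ _).trans (hdeg i a)) (fun a m => by
      rw [hP]
      beta_reduce
      rw [coeff_sum]
      refine (Finset.abs_sum_le_sum_abs _ _).trans ?_
      have h1 : ∀ i ∈ (univ : Finset (Fin r)), |coeff m (∑ l : Fin c,
          rename (fun b => f (i, l, b)) (Q i a))| ≤ c * B := by
        intro i _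
        rw [coeff_sum]
        refine (Finset.abs_sum_le_sum_abs _ _).trans ?_
        refine (Finset.sum_le_sum (g := fun _ => B) fun l _ =>
          coeff_rename_le (hinj i l) _ hB0.le (hcf i a) m).trans (le_of_eq ?_)
        rw [Finset.sum_const, Finset.card_univ, Fintype.card_fin, nsmul_eq_mul]
      refine (Finset.sum_le_sum h1).trans ?_
      rw [Finset.sum_const, Finset.card_univ, Fintype.card_fin, nsmul_eq_mul]
      nlinarith) ⟨z, fun j => by
        rw [hz]
        exact (s (f.symm j).2.1).2.2.2 _, by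
        rw [hjac]
        exact hs⟩ (fun y hy j => by
      obtain ⟨⟨i, l, b⟩, rfl⟩ := f.surjective j
      exact hY i _ (hmem y hy i l) b) (by
      rw [hS]
      refine Finset.Nonempty.image ?_ _
      exact Fintype.piFinset_nonempty.2 fun il => hne il.1) (by
      rw [hSc, Real.log_prod (fun il _ => by
        have := (hne il.1).card_pos
        positivity), hpc]
      have h1 : ∑ il : Fin r × Fin c, (k * (X * Real.log 2) - e) ≤
          ∑ il : Fin r × Fin c, Real.log ((Y il.1).card : ℝ) :=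
        Finset.sum_le_sum fun il _ => hent il.1
      refine le_trans (le_of_eq ?_) h1
      rw [Finset.sum_const, Finset.card_univ, Fintype.card_prod, Fintype.card_fin,
        Fintype.card_fin, nsmul_eq_mul]
      push_cast
      ring) (by
      refine le_trans ?_ hsz
      refine mul_le_mul hCc (Real.exp_le_exp.2 ?_) (Real.exp_pos _).le (hC₁0.le.trans hCc)
      calc C₁ * (r * c * e) = C₁ * (r * c) * e := by ring
        _ ≤ C * e := mul_le_mul_of_nonneg_right hCb he) (fun y hy => by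
      obtain ⟨g, hg, hga⟩ := hΓ (fun i l b => y (f (i, l, b))) (hmem y hy)
      refine ⟨g, hg, fun a => ?_⟩
      have h1 := hga a
      rw [hPe]
      exact h1)
  refine h0.trans ?_
  have hW : ((((r * c + 1) * B) ^ (c + 2) / ((ρ / (k + 1)) ^ c / c.factorial)) : ℝ) ^ (2 * c) ≤
      R₀ ^ (2 * c) * (B / ρ) ^ (2 * c * (c + 2)) := by
    have h1 : ((((r * c + 1) * B) ^ (c + 2) / ((ρ / (k + 1)) ^ c / c.factorial)) : ℝ) ≤
        R₀ * (B / ρ) ^ (c + 2) := by
      have h2 : ((((r * c + 1) * B) ^ (c + 2) / ((ρ / (k + 1)) ^ c / c.factorial)) : ℝ) =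
          R₀ * (B ^ (c + 2) / ρ ^ c) := by
        rw [hR₀, mul_pow, div_pow]
        field_simp
      rw [h2, div_pow]
      refine mul_le_mul_of_nonneg_left ?_ hR₀0.le
      refine div_le_div_of_nonneg_left (by positivity) (by positivity) ?_
      exact pow_le_pow_of_le_one hρ.le hρ1 (by omega)
    calc _ ≤ (R₀ * (B / ρ) ^ (c + 2)) ^ (2 * c) := pow_le_pow_left₀ (by positivity) h1 _
      _ = _ := by rw [mul_pow, ← pow_mul, mul_comm (c + 2)]
  have hexp : Real.exp (C₁ * (r * c * e)) ≤ Real.exp (C * e) := by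
    refine Real.exp_le_exp.2 ?_
    calc C₁ * (r * c * e) = C₁ * (r * c) * e := by ring
      _ ≤ C * e := mul_le_mul_of_nonneg_right hCb he
  obtain ⟨W, hWd⟩ : ∃ W : ℝ, W = (B / ρ) ^ (2 * c * (c + 2)) := ⟨_, rfl⟩
  rw [← hWd] at hW ⊢
  have hW0 : 0 ≤ W := by rw [hWd]; positivity
  calc C₁ * (E + 1) ^ c * ((((r * c + 1) * B) ^ (c + 2) /
        ((ρ / (k + 1)) ^ c / c.factorial)) : ℝ) ^ (2 * c) * Real.exp (C₁ * (r * c * e)) * Γ.card
      ≤ C₁ * (E + 1) ^ c * (R₀ ^ (2 * c) * W) * Real.exp (C * e) * Γ.card := by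
        refine mul_le_mul_of_nonneg_right ?_ (Nat.cast_nonneg _)
        refine mul_le_mul ?_ hexp (Real.exp_pos _).le (by positivity)
        exact mul_le_mul_of_nonneg_left hW (by positivity)
    _ = (C₁ * R₀ ^ (2 * c)) * ((E + 1) ^ c * W * Real.exp (C * e) * Γ.card) := by ring
    _ ≤ C * ((E + 1) ^ c * W * Real.exp (C * e) * Γ.card) :=
        mul_le_mul_of_nonneg_right hCa (by positivity)
    _ = _ := by ring

end Pool.CMP35
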